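import Pool.Agent.H14QH.Main

set_option autoImplicit false

namespace Pool.Agent.Results.MP_90188c_ag.IntrinsicGraded

/-- No non-smooth reduced quasi-homogeneous curve singularity is rigid: if `I` is a radical ideal of
`P = ℂ⟦x_1, …, x_n⟧` which is weighted homogeneous for some positive integer weights `d`, `P/I` has
dimension one and is not a principal ideal ring (not smooth), then not every `P`-linear map
`I → P/I` comes from a derivation of `P`, i.e. `T¹ ≠ 0`. -/
theorem result (n : ℕ) (d : Fin n → ℕ) (hd : ∀ i, 0 < d i)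
    (I : Ideal (MvPowerSeries (Fin n) ℂ)) (hrad : I.IsRadical)
    (hdim : ringKrullDim (MvPowerSeries (Fin n) ℂ ⧸ I) = 1)
    (hns : ¬ IsPrincipalIdealRing (MvPowerSeries (Fin n) ℂ ⧸ I))
    (hqh : ∀ f ∈ I, ∀ k : ℕ, MvPowerSeries.weightedHomogeneousComponent d k f ∈ I) :
    ¬ ∀ φ : (↥I) →ₗ[MvPowerSeries (Fin n) ℂ] (MvPowerSeries (Fin n) ℂ ⧸ I),
      ∃ D : Derivation ℂ (MvPowerSeries (Fin n) ℂ) (MvPowerSeries (Fin n) ℂ),
        ∀ f : (↥I), φ f = Ideal.Quotient.mk I (D (f : MvPowerSeries (Fin n) ℂ)) :=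
  Pool.Agent.QH.main hd hrad hdim hns hqh

end Pool.Agent.Results.MP_90188c_ag.IntrinsicGraded
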