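import Mathlib
import Pool.Agent.Helper379.QH

set_option autoImplicit false

namespace Pool.Agent.Results.MP_90188c_ag.QuasiHomogeneous

/-- The coefficient of `t^k` in the power series `f(c₁ t^{w₁}, …, cₙ t^{wₙ})`: the sum over all exponents
`s` with `∑ wᵢ sᵢ = k` of `coeff s f * ∏ cᵢ^{sᵢ}` (when all `wᵢ ≥ 1` such exponents have entries `≤ k`). -/
noncomputable def branchCoeff {n : ℕ} (w : Fin n → ℕ) (c : Fin n → ℂ) (k : ℕ)
    (f : MvPowerSeries (Fin n) ℂ) : ℂ :=
  ∑ s ∈ (Fintype.piFinset fun _ : Fin n => Finset.range (k + 1)).filter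
      (fun s => ∑ i, w i * s i = k),
    MvPowerSeries.coeff (Finsupp.equivFunOnFinite.symm s) f * ∏ i, c i ^ s i

/-- No non-smooth reduced quasi-homogeneous curve singularity is rigid. Let `w₁, …, wₙ ≥ 1` be weights,
`n ≥ 2`, let `c m` be finitely many nonzero vectors and let `I ⊂ ℂ⟦x₁, …, xₙ⟧` be the ideal of the union
of the branches `t ↦ (c_{m,1} t^{w₁}, …, c_{m,n} t^{wₙ})`. If no element of `I` has a linear term
(minimal embedding, embedding dimension `n ≥ 2`), then `T¹ ≠ 0`: some linear map `I → P/I` is not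
induced by a derivation of `P`. -/
theorem result (n M : ℕ) (hn : 2 ≤ n) (w : Fin n → ℕ) (hw : ∀ i, 0 < w i)
    (c : Fin M → Fin n → ℂ) (hc : ∀ m, c m ≠ 0)
    (I : Ideal (MvPowerSeries (Fin n) ℂ))
    (hI : ∀ f, f ∈ I ↔ ∀ m k, branchCoeff w (c m) k f = 0)
    (hlin : ∀ f ∈ I, ∀ j, MvPowerSeries.coeff (Finsupp.single j 1) f = 0) :
    ∃ φ : (↥I) →ₗ[MvPowerSeries (Fin n) ℂ] (MvPowerSeries (Fin n) ℂ ⧸ I),
      ∀ D : Derivation ℂ (MvPowerSeries (Fin n) ℂ) (MvPowerSeries (Fin n) ℂ),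
        ∃ f : ↥I, φ f ≠ Ideal.Quotient.mk I (D (f : MvPowerSeries (Fin n) ℂ)) := by
  refine QH.main w hw c hc hn I (fun f => ?_) hlin
  rw [hI]
  have key : ∀ m k, QH.ev c (QH.comp w k f) m = branchCoeff w (c m) k f := by
    intro m k
    unfold QH.ev QH.comp branchCoeff
    rw [map_sum]
    refine Finset.sum_congr rfl fun s _ => ?_
    rw [MvPolynomial.eval_monomial, Finsupp.prod_fintype _ _ (fun i => pow_zero _)]
    rfl
  constructor
  · intro h k
    funext m
    rw [key]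
    exact h m k
  · intro h m k
    rw [← key, h k]
    rfl

end Pool.Agent.Results.MP_90188c_ag.QuasiHomogeneous
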